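import Pool.Agent.H10.LDV.Stmts

/-!
# LDV, row LPK: the linear programme for a set of exponents at least five
-/

set_option autoImplicit false

namespace Pool.LDV

theorem phi3_cases14 (x g : ℝ) : Phi3 x g = x ∨ Phi3 x g = (5 * x - g) / 3 ∨
    Phi3 x g = 2 * x - g := by
  unfold Phi3
  rcases max_choice x (max ((5 * x - g) / 3) (2 * x - g)) with h | h
  · exact Or.inl h
  · rcases max_choice ((5 * x - g) / 3) (2 * x - g) with h' | h'
    · exact Or.inr (Or.inl (h.trans h'))
    · exact Or.inr (Or.inr (h.trans h'))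

theorem lpk_thm : S_LPK := by
  intro x xj xk k g hx hj hk hs h1 h2 h3 hk1 hk2 hg
  rcases phi3_cases14 xj g with a | a | a <;> rcases phi3_cases14 xk g with b | b | b <;>
    rw [a, b] <;> linarith only [hx, hj, hk, hs, h1, h2, h3, hk1, hk2, hg]

end Pool.LDV
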